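import Pool.Agent.T9h36.SQ.FinalAll

/-!
# Satisfiability of CNF formulas and negations in circuits

Circuits which read a CNF formula with `M = 2 ^ W` clauses over `n` variables (for every clause and
every literal whether the literal occurs in the clause) and decide whether it is satisfiable. They
consist of AND and OR gates of fan-in two and of further gates, for example NOT gates.

1. Exhaustive search is optimal for circuits with at most `log M - A log n` NOT gates, where `A`
   depends on `ε`: they have at least `2 ^ ((1 - ε) * n)` gates, up to a factor `2 ^ W`.
2. This follows from a property of ALL circuits. There are a random chain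
   `ψ 0 ≤ ψ 1 ≤ ψ 2 ≤ ...` of unsatisfiable formulas (with more and more literals in the clauses)
   and a random formula `φ` which is satisfied by a uniformly random assignment, such that for every
   circuit of size `2 ^ ((1 - 2 ε) n)`, if it rejects the formulas of the chain with probability `p`
   and accepts `φ` with probability `q`, then the values read by its further gates change in a
   fraction of at least `p + q - 1` (up to an exponentially small error) of the first `2 ^ g` steps
   of the chain, for all `g ≤ log M - A log n`. Along a chain there are less than `Π` changes, where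
   `Π` is the product over all levels of one plus the number of values read by the further gates of
   this level; `Π ≤ 2 ^ t` for `t` NOT gates.
3. With `log M + log log M + O(1)` NOT gates the question is the one for all circuits: a circuit with
   `s` gates can be replaced by one with that many NOT gates and, for fixed `δ`, `s * 2 ^ (δ n)`
   gates (times a polynomial in `n` and `M`).

So for `M = n ^ c` clauses the strong exponential time hypothesis for circuits (non-uniform) is
equivalent to its version for circuits with `c log n + log log n + O(1)` NOT gates, and this version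
is true with `(c - A) log n` instead.

The proof of the lower bound: `2 ^ g` guarded copies of the problem whether an `(n / b)`-partite graph
with parts of size `2 ^ b`, `b = O(log n)`, has a clique with one vertex from every part. The copies
are filled one after the other by random graphs given by colourings; in each step the values read by
the further gates change, or the step is done by a small monotone circuit, and this has no advantage
by the approximation method with robust sunflowers. The upper bound: monotone circuits for the
restrictions to `D = δ n / log N` consecutive slices, where `N` is the number of input bits.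
-/

set_option autoImplicit false

namespace Pool.Agent.Results.MP_c62aed_lc.FewNegations

open Pool.Agent.T9h34 (Circuit)
open Pool.Agent.T9h36.SN (IsLevel levelProduct prob)
open Pool.Agent.T9h36.SQ

theorem result :
    (∀ ε : ℝ, 0 < ε → ∃ A : ℕ, 0 < A ∧
      (∀ n W : ℕ, W ≤ n → ∀ C : Circuit (Fin (2 ^ W) × (Fin n × Bool)),
        OnlyNots C → DecidesSat C → C.numOther + A * (Nat.log 2 n + 1) ≤ W →
        (2 : ℝ) ^ ((1 - ε) * n) ≤ (C.size + 1) * 2 ^ (C.numOther + 3)) ∧
      ∀ n W g : ℕ, W ≤ n → g + A * (Nat.log 2 n + 1) ≤ W →
        ∃ (Ω : Type) (_ : Fintype Ω) (_ : Nonempty Ω) (ψ : Ω → ℕ → Formula n (2 ^ W))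
          (φ : Ω × (Fin n → Bool) → Formula n (2 ^ W)),
          (∀ ω i, Unsat (ψ ω i) ∧ ∀ j, ψ ω i j ⊆ ψ ω (i + 1) j ∧ (ψ ω i j).card ≤ W + 2) ∧
          (∀ p, Satisfies p.2 (φ p) ∧ ∀ j, (φ p j).card ≤ W + 2) ∧
          ∀ C : Circuit (Fin (2 ^ W) × (Fin n × Bool)),
            prob (fun p : Ω × Fin (2 ^ g) => C.eval (bits (ψ p.1 (p.2.val + 1))) = false) +
              prob (fun p => C.eval (bits (φ p)) = true) ≤
            1 + prob (fun p : Ω × Fin (2 ^ g) => C.reads (bits (ψ p.1 p.2.val)) ≠
                C.reads (bits (ψ p.1 (p.2.val + 1)))) +
              (C.size + C.numReads + 1 : ℕ) * 2 ^ g / 2 ^ ((1 - ε) * n) ∧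
            ∀ lev, IsLevel C lev →
              prob (fun p : Ω × Fin (2 ^ g) => C.reads (bits (ψ p.1 p.2.val)) ≠
                C.reads (bits (ψ p.1 (p.2.val + 1)))) ≤ ((levelProduct C lev : ℝ) - 1) / 2 ^ g) ∧
    (∀ δ : ℝ, 0 < δ → ∃ B : ℕ, ∀ (n W : ℕ) (C : Circuit (Fin (2 ^ W) × (Fin n × Bool))),
      OnlyNots C → DecidesSat C →
      ∃ C' : Circuit (Fin (2 ^ W) × (Fin n × Bool)), OnlyNots C' ∧ DecidesSat C' ∧
        C'.numOther ≤ W + Nat.log 2 (W + Nat.log 2 n + 3) + B ∧
        (C'.size : ℝ) ≤ (C.size + 1) * 2 ^ (4 * (W + Nat.log 2 n) + 14) * 2 ^ (δ * n)) :=
  Pool.Agent.T9h36.SQ.final_all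

end Pool.Agent.Results.MP_c62aed_lc.FewNegations
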