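import Pool.Agent.T9h20.W.Main

/-!
Exhaustive search is optimal for monotone circuits with large gates, on average: a SETH-strength
lower bound.

Adding clauses to an unsatisfiable CNF formula keeps it unsatisfiable, so unsatisfiability is a
monotone function of the set of clauses. Exhaustive search is a monotone circuit for it: the
conjunction over all `2 ^ n` assignments `x` of the disjunction of the inputs of the clauses
falsified by `x`. The theorem says that, up to a factor `2 ^ (ε n)`, monotone circuits cannot do
better, and this remains true

* for gates which compute arbitrary nondecreasing functions of up to `f` real numbers, where `f` may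
  be any fixed polynomial in `n`, or even `2 ^ (n / K)`, while the number of possible clauses is
  `(n + f) ^ K`: there is no monotone reduction of CNF-SAT to monotone problems of size `n ^ c`, even
  with almost `2 ^ n` calls of arbitrary oracles (no monotone sparsification);
* for circuits which obtain all nondecreasing functions of all subformulas induced by `(1 - ε) n` of
  the variables for free (for `ε ≤ 1 / 2` these include the inputs which tell whether a clause `C` of
  `𝒞` is present, since `4 ^ |C| ≤ 2 ^ n`);
* for telling unsatisfiable formulas from formulas with exactly one satisfying assignment: the
  planted formula of an assignment `x` consists of all clauses of `𝒞` which are satisfied by `x`;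
* on average, for a distribution `μ` on the unsatisfiable formulas which does not depend on the
  circuit: if `M` gives to a random unsatisfiable formula with probability more than
  `1 - 2 ^ (-n / 2 ^ r)` a larger value than to the planted formula of each `x ∈ X`, then `M` has at
  least `|X| / 2 ^ (ε n)` gates. For `r = 1` (polynomially many clauses, if `f` is polynomial) the
  probability is at least `1 - 2 ^ (-n / 2)`; for `2 ^ r ≥ t * n` it is less than `1 / t`, so that
  small circuits which accept a fraction `1 / t` of `μ` accept the planted formulas of almost all
  assignments.

Monotone Boolean circuits are the special case where all gates are `min` and `max`; circuits with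
weighted threshold gates and tropical circuits (dynamic programming) are other special cases.

The proof is by the method of approximations, with chains of families of partial assignments which
are closed with respect to a random formula (Janson's inequality replaces the sunflower lemma). At a
gate of large fan-in the families are intersected one after the other, and only few relatively
minimal extensions of the current partial assignment are possible in each step.
-/

namespace Pool.Agent.Results.MP_c62aed_lc.LargeMonotoneGates

open Pool.Agent.T9h20

/-- For every `ε > 0` there is `K` such that for all `n, f, r ≥ 1` with `(n + f) ^ (K r) ≤ 2 ^ n`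
there are a set `𝒞` of at most `(n + f) ^ (K r)` clauses over `n` variables, each of width at most
`(K r / 2) log₂ (n + f)`, and a probability distribution `μ` on the unsatisfiable formulas `φ ⊆ 𝒞`
such that
* for every assignment `x`, the planted formula `planted 𝒞 x` (all clauses of `𝒞` satisfied by `x`)
  is satisfied by `x` only;
* for every monotone real circuit `M` with gates of fan-in at most `f`, whose inputs are
  nondecreasing functions of the subformulas induced by sets of at most `(1 - ε) n` variables, and
  every set `X` of assignments `x` such that `M` has on a random formula `φ` with distribution `μ`,
  with probability more than `1 - 2 ^ (-n / 2 ^ r)`, a larger value than on `planted 𝒞 x`, the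
  circuit `M` has at least `|X| / 2 ^ (ε n)` gates. -/
theorem result (ε : ℝ) (hε : 0 < ε) : ∃ K : ℕ, ∀ n f r : ℕ, 1 ≤ n → 1 ≤ f → 1 ≤ r →
    (n + f) ^ (K * r) ≤ 2 ^ n →
    ∃ (𝒞 : CNF n) (μ : CNF n → ℝ), 𝒞.card ≤ (n + f) ^ (K * r) ∧
      (∀ C ∈ 𝒞, 4 ^ C.card ≤ (n + f) ^ (K * r)) ∧
      (∀ x y : Fin n → Bool, (∀ C ∈ planted 𝒞 x, ¬ Falsifies y C) → y = x) ∧
      UnsatDistribution 𝒞 μ ∧
      ∀ M : FCircuit (SubFn n), M.FanInLe f → M.ScopeLe ((1 - ε) * n) →
        ∀ X : Finset (Fin n → Bool),
        (∀ x ∈ X, 1 - (2 : ℝ) ^ (-(n : ℝ) / 2 ^ r)
          < prob μ (fun φ => M.value (planted 𝒞 x) < M.value φ)) →
        (X.card : ℝ) ≤ M.size * (2 : ℝ) ^ (ε * n) :=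
  wide_main ε hε

end Pool.Agent.Results.MP_c62aed_lc.LargeMonotoneGates
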