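import Mathlib
import Pool.Agent.T9h20.MachMA

/-!
# Merlin–Arthur algorithms with small memory and monotone access to the formula

Exhaustive search is optimal for them: they need `2 ^ ((1 - 1/M) n)` steps for unsatisfiability.
-/

set_option autoImplicit false

namespace Pool.Agent.Results.MP_c62aed_lc.MerlinArthurMachines

open Pool.Agent.T9h20

/-- There is a constant `K` with the following property. Let `n, L, M ≥ 1` with
`W = K (M log₂ (n + L))² ≤ n`, and let `R ρ`, for the `2 ^ L` values of a string `ρ` of `L` random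
bits, be nondeterministic machines with at most `2 ^ L` configurations (`L` bits of memory), whose
input is a CNF formula in `n` variables, to which they have monotone access, and which find at most
`L` clauses in each step. Suppose that every satisfiable formula of width at most `W` is accepted
(after any number of steps) with probability at most `σ` over `ρ`. Then there is an unsatisfiable
formula `φ` with at most `2 ^ W` clauses of width at most `W`, such that for every `T` the
probability that `R ρ` has an accepting run with at most `T` steps on `φ` is at most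
`σ + 1 / (n + L) + T / 2 ^ ((1 - 1/M) n)`. -/
theorem result : ∃ K : ℕ, ∀ n L M : ℕ, 1 ≤ n → 1 ≤ L → 1 ≤ M →
    K * (M * Nat.log 2 (n + L)) ^ 2 ≤ n →
    ∀ R : Fin (2 ^ L) → NMachine n, (∀ ρ, Finite (R ρ).State) →
      (∀ ρ, Nat.card (R ρ).State ≤ 2 ^ L) → ∀ σ : ℝ,
      (∀ ψ : CNF n, (∀ C ∈ ψ, C.card ≤ K * (M * Nat.log 2 (n + L)) ^ 2) → ¬ Unsat ψ →
        (Nat.card {ρ : Fin (2 ^ L) // ∃ T, (R ρ).AcceptsIn L ψ T} : ℝ) ≤ σ * 2 ^ L) →
    ∃ φ : CNF n, Unsat φ ∧ φ.card ≤ 2 ^ (K * (M * Nat.log 2 (n + L)) ^ 2) ∧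
      (∀ C ∈ φ, C.card ≤ K * (M * Nat.log 2 (n + L)) ^ 2) ∧
      ∀ T : ℕ, (Nat.card {ρ : Fin (2 ^ L) // ∃ T' ≤ T, (R ρ).AcceptsIn L φ T'} : ℝ)
        ≤ (σ + 1 / (n + L) + T / (2 : ℝ) ^ ((1 - 1 / (M : ℝ)) * n)) * 2 ^ L :=
  ma_main

end Pool.Agent.Results.MP_c62aed_lc.MerlinArthurMachines
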