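import Mathlib
import Pool.Agent.T9h47.SX.Final

/-!
# Circuits for satisfiability must break the symmetry under negations

An instance is a set `φ` of clauses with at most `k` literals over `n` variables. A circuit gets one
input for each such clause `C`, which is `b₁` if `C` is in `φ` and `b₀` otherwise. Its gates may
compute arbitrary functions of the multisets of the values of their children (with roles), with
values in an arbitrary set `K`. Nothing is assumed about the circuit. The answer does not change if
variables are negated. Let `G` be a group of negations of variables, that is, a subgroup of the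
group of all functions from variables to the field with two elements.

The view of a gate is its value together with the multisets of the values of its children. Let
`N(C)` be the number of different functions `φ ↦ view of g on f φ` of sets of at most `m` clauses,
where `g` is a gate and `f` is in `G`. It measures how much the circuit breaks the symmetry:
`N(C)` is at most the number `s` of gates if the circuit is symmetric under `G` (every element of
`G` extends to an automorphism), and at most `s |G|` for all circuits.

* Lower bound on average: for all `k` there are a random satisfiable instance and a random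
  unsatisfiable instance with at most `m = O (log |G|)` clauses between which every circuit `C`
  distinguishes with advantage at most `N(C) p / |G| ^ (1 - 2.9/k)`, where
  `p = 2 ^ (k + 2) * (6 log |G| + 3) ^ 4`.
* Lower bound: `N(C) ≥ |G| ^ (1 - 2.9/k) / p` for all circuits which decide satisfiability for
  instances with at most `m` clauses. So if all variables may be negated, a circuit with `s` gates
  has a gate whose view has at least `2 ^ ((1 - 2.9/k) n) / (s p)` different images under negations:
  small circuits must contain gates without much symmetry.
* Exhaustive search is a circuit symmetric under all `2 ^ n` negations with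
  `2 ^ n + (2 n + 1) ^ k + 1` gates.

Proof of the lower bound. Let `|G| = 2 ^ h`. The elements of `G` have arbitrary values on some set
of `h` variables; only variables in this set occur in the instances. They are the edges of a random
`k`-regular multigraph (configuration model) with about `2 h / k` vertices, and the instances say
that the sum of the variables at the vertex `v` is `c v`, in the field with two elements, with random
negations from `G`. There is no solution if the sum of all `c v` is odd. For a set `y` of vertices
let `∂ y` be the set of edges between `y` and its complement. For a gate `g` let `S` be the group of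
all `f` in `G` which do not change the view of `g`, let `Z` be its restriction to the edges, and `W`
the space of all vectors orthogonal to `Z`. The group `G` is commutative, so `Z` is the same for all
images of the view, of which there are at least `|W|`; so the sum of `|W|` over all the different
spaces `W` is at most `N(C)`. Call a pair of sets of vertices `y`, `z` bad if `y`, `z` and the
complement of `y + z` contain at most half of the vertices. For a bad pair two random vertices `v`,
`w` have the same type `(y v, z v) = (y w, z w)` with probability `q ≤ 1/2`; so `∂ y` and `∂ z` are
in a space `W` of codimension `r` with probability at most about `q ^ r ≤ (2 q) ^ r |W| / 2 ^ h`,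
and the sum over all `W` and over all bad pairs is small. If `∂ y` and `∂ z` are in `W` for no bad
pair, then the function which is one for the sets `y` with more than half of the vertices and zero
for the others is linear on the space of all `y` with `∂ y` in `W`; call `c` good for `g` if it
represents this linear function. Then the value of `g` at every good `c` is its value at `c = 0`, by
induction: by linear algebra, for every child `g'` of `g` some element of `S` moves `c` to a right
hand side which is good for `g'`, and the multisets of the values of the children do not change under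
`S`, so they can be replaced by their sums over `S`, which are equal for `c` and for `0`.
-/

set_option autoImplicit false

namespace Pool.Agent.Results.MP_c62aed_lc.SymmetryBreaking

open Pool.Agent.T9h47.SC Pool.Agent.T9h47.SE Pool.Agent.T9h47.SX

theorem result :
    -- all circuits, average case
    (∀ (k n : ℕ) (G : AddSubgroup (Fin n → ZMod 2)), 1 ≤ k → 2 ^ k ≤ Nat.card G →
      ∃ (Ω : Type) (_ : Fintype Ω) (_ : Nonempty Ω) (φ₀ φ₁ : Ω → Set (Cl n k)),
        (∀ ω, Satisfiable (φ₀ ω) ∧ ¬ Satisfiable (φ₁ ω) ∧
          (φ₀ ω).ncard ≤ 2 ^ (k + 1) * Nat.log 2 (Nat.card G) ∧
          (φ₁ ω).ncard ≤ 2 ^ (k + 1) * Nat.log 2 (Nat.card G)) ∧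
        ∀ (K : Type) (C : Circuit K (Cl n k)) (b₀ b₁ : K) (Acc : Set K),
          |(Nat.card {ω // C.val (inp b₀ b₁ (φ₀ ω)) C.out ∈ Acc} : ℝ) -
            (Nat.card {ω // C.val (inp b₀ b₁ (φ₁ ω)) C.out ∈ Acc} : ℝ)| ≤
            ((views G C b₀ b₁ (2 ^ (k + 1) * Nat.log 2 (Nat.card G))).ncard : ℝ) *
              (2 ^ (k + 2) * (6 * (Nat.log 2 (Nat.card G) : ℝ) + 3) ^ 4) /
              ((Nat.card G : ℕ) : ℝ) ^ (1 - 29 / (10 * k) : ℝ) * Fintype.card Ω) ∧
    -- all circuits deciding satisfiability
    (∀ (k n : ℕ) (G : AddSubgroup (Fin n → ZMod 2)), 1 ≤ k → 2 ^ k ≤ Nat.card G →
      ∀ (K : Type) (C : Circuit K (Cl n k)) (b₀ b₁ : K) (Acc : Set K),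
        DecidesSat C b₀ b₁ Acc (2 ^ (k + 1) * Nat.log 2 (Nat.card G)) →
        ((Nat.card G : ℕ) : ℝ) ^ (1 - 29 / (10 * k) : ℝ) ≤
          ((views G C b₀ b₁ (2 ^ (k + 1) * Nat.log 2 (Nat.card G))).ncard : ℝ) *
            (2 ^ (k + 2) * (6 * (Nat.log 2 (Nat.card G) : ℝ) + 3) ^ 4)) ∧
    -- the number of views
    (∀ (k n m : ℕ) (G : AddSubgroup (Fin n → ZMod 2)) (K : Type) (C : Circuit K (Cl n k))
      (b₀ b₁ : K), (views G C b₀ b₁ m).ncard ≤ Nat.card G * @Fintype.card C.Gate C.fin ∧
        (Symm C G → (views G C b₀ b₁ m).ncard ≤ @Fintype.card C.Gate C.fin)) ∧
    -- exhaustive search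
    (∀ n k : ℕ, ∃ C : Circuit Bool (Cl n k), Symm C ⊤ ∧
      (∀ φ : Set (Cl n k), C.val (inp false true φ) C.out = true ↔ Satisfiable φ) ∧
      @Fintype.card C.Gate C.fin ≤ 2 ^ n + (2 * n + 1) ^ k + 1) :=
  ⟨fun k n G hk hG => breaking_avg k n G hk hG,
    fun k n G hk hG K C b₀ b₁ Acc hD => breaking_worst k n G hk hG K C b₀ b₁ Acc hD,
    fun _ _ m G _ C b₀ b₁ => ⟨views_le G C b₀ b₁ m, views_symm G C b₀ b₁ m⟩,
    fun n k => ⟨brute n k, fun f _ => brute_sym 1 f,
      fun φ => brute_decides φ.ncard φ le_rfl, brute_card⟩⟩

end Pool.Agent.Results.MP_c62aed_lc.SymmetryBreaking
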